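import Pool.Agent.H18.Rd1

set_option autoImplicit false

open Finset Pointwise

namespace Pool.Agent.Results.MP_37447d_al.ExpBalls

variable {G : Type*} [Group G]

/-- length functions -/
def IsLength (L : G → ℝ) : Prop :=
  (∀ g, 0 ≤ L g) ∧ L 1 = 0 ∧ (∀ g, L g⁻¹ = L g) ∧ ∀ g h, L (g * h) ≤ L g + L h

/-- convolution of a finitely supported `φ` with an arbitrary `ψ` -/
noncomputable def conv (φ : G →₀ ℂ) (ψ : G → ℂ) (g : G) : ℂ := ∑ h ∈ φ.support, φ h * ψ (h⁻¹ * g)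

/-- property RD -/
def RD (L : G → ℝ) : Prop :=
  ∃ P : Polynomial ℝ, ∀ r : ℝ, 0 < r → ∀ (φ : G →₀ ℂ) (ψ : G → ℂ), (∀ g ∈ φ.support, L g ≤ r) →
    Summable (fun g => ‖ψ g‖ ^ 2) → Summable (fun g => ‖conv φ ψ g‖ ^ 2) ∧
      ∑' g, ‖conv φ ψ g‖ ^ 2 ≤ P.eval r * (∑ g ∈ φ.support, ‖φ g‖ ^ 2) * ∑' g, ‖ψ g‖ ^ 2

open Classical in
/-- the indicator condition -/
def Indicator (L : G → ℝ) : Prop :=
  ∃ P : Polynomial ℝ, ∀ r : ℝ, 0 < r → ∀ S X : Finset G, (∀ s ∈ S, L s ≤ r) →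
    ∑ g ∈ S * X, (#{p ∈ S ×ˢ X | p.1 * p.2 = g} : ℝ) ^ 2 ≤ P.eval r * #S * #X

/-- balls have at most `2 ^ Q(r)` elements for a polynomial `Q` -/
def ExpPolyBalls (L : G → ℝ) : Prop :=
  ∃ Q : Polynomial ℝ, ∀ r : ℝ, 0 < r → ∀ S : Finset G, (∀ s ∈ S, L s ≤ r) →
    (#S : ℝ) ≤ (2 : ℝ) ^ (Q.eval r)

/-- `L` dominates the word length of a finite set `A` generating `G` as a monoid -/
def DominatesWordLength (L : G → ℝ) : Prop :=
  ∃ A : Finset G, ∀ g : G, ∃ l : List G, (∀ a ∈ l, a ∈ A) ∧ l.prod = g ∧ (l.length : ℝ) ≤ L g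

lemma rd_of_exp (L : G → ℝ) (hL : IsLength L) (hQ : ExpPolyBalls L) (hI : Indicator L) : RD L := by
  classical
  obtain ⟨Q, hQ⟩ := hQ
  obtain ⟨P, hP⟩ := hI
  refine ⟨2 + 8 * (Q + 2) * (2 + 8 * (Q + 2) * P), fun r hr φ ψ hφ hψ => ?_⟩
  have h1 : ∀ s ∈ ({1} : Finset G), L s ≤ r := fun s hs => by
    rw [mem_singleton.1 hs, hL.2.1]; exact hr.le
  have hQ0 : 0 ≤ Q.eval r := by
    have := hQ r hr {1} h1
    rw [card_singleton, Nat.cast_one] at this
    by_contra hc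
    exact absurd this (not_le.2 (Real.rpow_lt_one_of_one_lt_of_neg (by norm_num) (not_le.1 hc)))
  have hP0 : 0 ≤ P.eval r := by
    have := hP r hr {1} {1} h1
    simp only [card_singleton, Nat.cast_one, mul_one] at this
    exact (sum_nonneg fun _ _ => sq_nonneg _).trans this
  set t := ⌈Q.eval r⌉₊ with ht
  have ht1 : (t : ℝ) + 1 ≤ Q.eval r + 2 := by have := Nat.ceil_lt_add_one hQ0; linarith
  have ht2 : (#φ.support : ℝ) ≤ 2 ^ t := by
    refine (hQ r hr _ hφ).trans ?_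
    rw [← Real.rpow_natCast]
    exact Real.rpow_le_rpow_of_exponent_le (by norm_num) (Nat.le_ceil _)
  have key : ∀ F : Finset G, ∑ g ∈ F, ‖conv φ ψ g‖ ^ 2 ≤
      (2 + 8 * (Q + 2) * (2 + 8 * (Q + 2) * P)).eval r * (∑ g ∈ φ.support, ‖φ g‖ ^ 2) *
        ∑' g, ‖ψ g‖ ^ 2 := by
    intro F
    have h2 := H18.Rd.step2 φ.support F (φ.support⁻¹ * F) (fun g => ‖φ g‖) (fun g => ‖ψ g‖)
      (fun _ => norm_nonneg _) (fun _ => norm_nonneg _)
      (fun s hs g hg => mul_mem_mul (inv_mem_inv hs) hg) t ht2 (P.eval r) hP0 fun S hS X => by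
        refine le_trans ?_ (hP r hr S X fun s hs => hφ s (hS hs))
        have e : ∀ g, #{s ∈ S | s⁻¹ * g ∈ X} = #{p ∈ S ×ˢ X | p.1 * p.2 = g} := fun g => by
          refine card_bij' (fun s _ => (s, s⁻¹ * g)) (fun p _ => p.1) ?_ ?_ ?_ ?_
          · intro s hs; simpa using hs
          · intro p hp
            simp only [mem_filter, mem_product] at hp ⊢
            exact ⟨hp.1.1, by rw [← hp.2]; simpa using hp.1.2⟩
          · intro s _; rfl
          · intro p hp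
            simp only [mem_filter] at hp
            rw [← hp.2]; simp
        have e' : ∑ g ∈ F, (#{s ∈ S | s⁻¹ * g ∈ X} : ℝ) ^ 2 =
            ∑ g ∈ F, (#{p ∈ S ×ˢ X | p.1 * p.2 = g} : ℝ) ^ 2 := sum_congr rfl fun g _ => by rw [e]
        refine le_trans (le_of_eq (by convert e')) ?_
        rw [← sum_filter_ne_zero]
        refine sum_le_sum_of_subset_of_nonneg (fun g hg => ?_) fun _ _ _ => sq_nonneg _
        have : #{p ∈ S ×ˢ X | p.1 * p.2 = g} ≠ 0 := fun h => (mem_filter.1 hg).2 (by rw [h]; simp)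
        obtain ⟨p, hp⟩ := card_ne_zero.1 this
        simp only [mem_filter, mem_product] at hp
        exact hp.2 ▸ mul_mem_mul hp.1.1 hp.1.2
    have h3 : ∑ y ∈ φ.support⁻¹ * F, ‖ψ y‖ ^ 2 ≤ ∑' g, ‖ψ g‖ ^ 2 :=
      hψ.sum_le_tsum _ fun _ _ => sq_nonneg _
    have h4 : ∑ g ∈ F, ‖conv φ ψ g‖ ^ 2 ≤ ∑ g ∈ F, (∑ s ∈ φ.support, ‖φ s‖ * ‖ψ (s⁻¹ * g)‖) ^ 2 := by
      refine sum_le_sum fun g _ => pow_le_pow_left₀ (norm_nonneg _) ?_ 2
      exact (norm_sum_le _ _).trans (le_of_eq (sum_congr rfl fun _ _ => norm_mul _ _))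
    refine h4.trans (h2.trans ?_)
    simp only [Polynomial.eval_add, Polynomial.eval_mul, Polynomial.eval_ofNat]
    gcongr
  exact ⟨summable_of_sum_le (fun _ => sq_nonneg _) key,
    Real.tsum_le_of_sum_le (fun _ => sq_nonneg _) key⟩

lemma exp_of_word (L : G → ℝ) (h : DominatesWordLength L) : ExpPolyBalls L := by
  classical
  obtain ⟨A, hA⟩ := h
  refine ⟨Polynomial.C (#A : ℝ) * Polynomial.X, fun r hr S hS => ?_⟩
  have h1 : ∀ l : List G, (∀ a ∈ l, a ∈ A) → l.prod ∈ (insert 1 A) ^ l.length := by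
    intro l hl
    induction l with
    | nil => simp
    | cons a l ih =>
      rw [List.prod_cons, List.length_cons, pow_succ']
      exact mul_mem_mul (mem_insert_of_mem (hl a (by simp))) (ih fun b hb => hl b (by simp [hb]))
  have h2 : S ⊆ (insert 1 A) ^ ⌊r⌋₊ := fun s hs => by
    obtain ⟨l, h3, rfl, h4⟩ := hA s
    exact pow_subset_pow_right (mem_insert_self _ _) (Nat.le_floor (h4.trans (hS _ hs))) (h1 l h3)
  have h3 : #S ≤ 2 ^ (#A * ⌊r⌋₊) := by
    refine (card_le_card h2).trans (card_pow_le.trans ?_)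
    rw [pow_mul]
    exact Nat.pow_le_pow_left ((card_insert_le _ _).trans (Nat.lt_two_pow_self)) _
  have h4 : (#S : ℝ) ≤ 2 ^ (#A * ⌊r⌋₊) := by exact_mod_cast h3
  refine h4.trans ?_
  rw [← Real.rpow_natCast]
  refine Real.rpow_le_rpow_of_exponent_le (by norm_num) ?_
  simp only [Nat.cast_mul, Polynomial.eval_mul, Polynomial.eval_C, Polynomial.eval_X]
  exact mul_le_mul_of_nonneg_left (Nat.floor_le hr.le) (by positivity)

theorem result (G : Type*) [Group G] (L : G → ℝ) (hL : IsLength L)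
    (h : ExpPolyBalls L ∨ DominatesWordLength L) (hI : Indicator L) : RD L :=
  rd_of_exp L hL (h.elim id (exp_of_word L)) hI

end Pool.Agent.Results.MP_37447d_al.ExpBalls
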